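import Pool.Agent.R553.LS.Mem
import Pool.Agent.H612.PatOf

/-!
# Long and short edges on complete bipartite graphs: `∃ℝ`-completeness

The definitions of graphs with short and long edges and of realizing straight-line drawings are in
`Pool.Agent.R553.LS.Defs`, those of the existential theory of the reals and of the class `∃ℝ` in
`Pool.Agent.ER.Defs`.

Idea of the proof. The realizability of sign matrices by points and half-planes is hard for `∃ℝ`.
Given such a matrix, let every row be a vertex on the one side, and let every column `j` give two
vertices `b`, `b'` on the other side; the edge from a row to `b` is short and the edge to `b'` is
long if the entry is positive, and vice versa if the entry is negative. In a realization the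
perpendicular bisector of `b` and `b'` separates the positive rows of the column from the negative
ones. Conversely, a realization of the matrix by points and half-planes can be shrunk, so that the
half-planes and their complements are approximated by disks of radius one.
-/

namespace Pool.Agent.Results.MP_24b35c_lc.CompleteBipartite

open Pool.Agent.NPC Pool.Agent.NPC.ER Pool.Agent.NPC.ER.Pat Pool.Agent.R553.LS

theorem isPatOf : IsPatOf Sgn.patOf where
  poly := Sgn.poly_patOf Poly.id
  wf := Sgn.patOf_wf
  sound := fun _ h => Sgn.patOf_sound h
  complete := fun _ h => Sgn.patOf_complete h

/-- Long/short edge realizability restricted to complete bipartite graphs is `∃ℝ`-complete under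
polynomial-time many-one reductions. The second part spells out the hardness: every problem of `∃ℝ`
has a polynomial-time reduction to long/short edge realizability all of whose values are complete
bipartite graphs with short and long edges. -/
theorem result :
    ERComplete (lang fun G : Inst => IsInst G ∧ IsCompleteBipartite G ∧ Realizable G) ∧
    ∀ L : Set (List Bool), InER L → ∃ f : List Bool → Inst, PolyTime (fun w => bits (f w)) ∧
      ∀ w, IsInst (f w) ∧ IsCompleteBipartite (f w) ∧ (w ∈ L ↔ Realizable (f w)) :=
  ⟨R553LS.ls_complete isPatOf, R553LS.ls_hard isPatOf⟩

end Pool.Agent.Results.MP_24b35c_lc.CompleteBipartite
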